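import Mathlib

/-!
# The arithmetic of the strategy of Algorithm on the 5-cycle with one chord

The complement of the graph is the path `a - b - c - d - e`. Here `a, b, c, d, e` are the numbers of
tokens on the five vertices, `p` is the number of colours used both on `b` and on `c`, and `q` is
the number of colours used both on `c` and on `d`. The width is `4 * m`.
-/

set_option autoImplicit false

namespace Q127.Tok

/-- The invariant maintained by Algorithm. -/
def AInv (m a b c d e p q : ℕ) : Prop :=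
  p ≤ b ∧ q ≤ d ∧ p + q ≤ c ∧
  (b ≤ a + p + m ∨ c ≤ p + m) ∧ (d ≤ e + q + m ∨ c ≤ q + m) ∧
  b + c + d ≤ p + q + 5 * m ∧
  (p ≤ m ∨ p + 3 * m ≤ c + a + e ∨ p + 3 * m ≤ c + b + e) ∧
  (q ≤ m ∨ q + 3 * m ≤ c + d + a ∨ q + 3 * m ≤ c + e + a) ∧
  (b ≤ a + c ∨ d ≤ e + c ∨ c + b ≤ a + p + q + 2 * m ∨ c + d ≤ e + p + q + 2 * m)

/-- The conditions on the numbers of tokens. -/
def Feas (m a b c d e : ℕ) : Prop :=
  a + c + e ≤ 4 * m ∧ a + d ≤ 4 * m ∧ b + d ≤ 4 * m ∧ b + e ≤ 4 * m

theorem total {m a b c d e p q : ℕ} (h : AInv m a b c d e p q) (hf : Feas m a b c d e) :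
    max a (b - p) + c + max e (d - q) ≤ 5 * m := by
  unfold AInv at h
  unfold Feas at hf
  omega

theorem step_a {m a b c d e p q : ℕ} (h : AInv m a b c d e p q) :
    AInv m (a + 1) b c d e p q := by
  unfold AInv at *
  omega

theorem step_e {m a b c d e p q : ℕ} (h : AInv m a b c d e p q) :
    AInv m a b c d (e + 1) p q := by
  unfold AInv at *
  omega

theorem step_b {m a b c d e p q : ℕ} (h : AInv m a b c d e p q) (hf : Feas m a (b + 1) c d e) :
    AInv m a (b + 1) c d e p q ∨ (p + q < c ∧ AInv m a (b + 1) c d e (p + 1) q) := by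
  unfold AInv at *
  unfold Feas at hf
  omega

theorem step_d {m a b c d e p q : ℕ} (h : AInv m a b c d e p q) (hf : Feas m a b c (d + 1) e) :
    AInv m a b c (d + 1) e p q ∨ (p + q < c ∧ AInv m a b c (d + 1) e p (q + 1)) := by
  unfold AInv at *
  unfold Feas at hf
  omega

theorem step_c {m a b c d e p q : ℕ} (h : AInv m a b c d e p q) (hf : Feas m a b (c + 1) d e) :
    AInv m a b (c + 1) d e p q ∨ (a + p < b ∧ AInv m a b (c + 1) d e (p + 1) q) ∨
      (e + q < d ∧ AInv m a b (c + 1) d e p (q + 1)) := by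
  unfold AInv at *
  unfold Feas at hf
  omega

end Q127.Tok
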