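import Mathlib

/-!
# The token colouring game

Spoiler places tokens on the vertices of a graph, one after the other, and Algorithm colours every
token when it is placed.
-/

set_option autoImplicit false

namespace Q127.Tok

variable {V : Type*}

/-- The token graph of a list of placed tokens (each token is given by its vertex): two distinct
tokens are adjacent if they lie on the same vertex or on adjacent vertices of `G`. -/
def tokenGraph (G : SimpleGraph V) (s : List V) : SimpleGraph (Fin s.length) where
  Adj i j := i ≠ j ∧ (s[i] = s[j] ∨ G.Adj s[i] s[j])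
  symm := ⟨fun _ _ h => ⟨h.1.symm, h.2.imp Eq.symm SimpleGraph.Adj.symm⟩⟩
  loopless := ⟨fun _ h => h.1 rfl⟩

/-- The list `s` of the vertices of the tokens, the last token being the head of the list, is a
legal sequence of moves of Spoiler at width `w`: at every moment the chromatic number of the token
graph is at most `w`. -/
def Legal (G : SimpleGraph V) (w : ℕ) (s : List V) : Prop :=
  ∀ t, t <:+ s → (tokenGraph G t).Colorable w

/-- A strategy of Algorithm: the colour of the next token as a function of the history (the list of
the vertices and the colours of all earlier tokens, the last one first) and of the vertex on which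
the next token is placed. Since a strategy is a function of the history, it suffices to consider
fixed sequences of moves of Spoiler. -/
abbrev Strategy (V : Type*) := List (V × ℕ) → V → ℕ

/-- The history when Spoiler places tokens on the vertices in the list `s` (the last one first) and
Algorithm uses the strategy `σ`. -/
def play (σ : Strategy V) : List V → List (V × ℕ)
  | [] => []
  | v :: s => (v, σ (play σ s) v) :: play σ s

/-- Tokens on the same vertex or on adjacent vertices have different colours. -/
def ProperHistory (G : SimpleGraph V) (h : List (V × ℕ)) : Prop :=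
  h.Pairwise (fun x y => (x.1 = y.1 ∨ G.Adj x.1 y.1) → x.2 ≠ y.2)

/-- The strategy `σ` colours properly and with at most `N` colours, whatever Spoiler does. -/
def Guarantees (G : SimpleGraph V) (w N : ℕ) (σ : Strategy V) : Prop :=
  ∀ s, Legal G w s →
    ProperHistory G (play σ s) ∧ ((play σ s).map Prod.snd).toFinset.card ≤ N

/-- `f(w, G)`: the least number of colours that Algorithm can guarantee. -/
noncomputable def f (w : ℕ) (G : SimpleGraph V) : ℕ :=
  sInf {N | ∃ σ : Strategy V, Guarantees G w N σ}

/-- The 5-cycle `0 1 2 3 4` with the chord `0 2`. -/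
def C5plus : SimpleGraph (Fin 5) where
  Adj i j := j = i + 1 ∨ i = j + 1 ∨ (i = 0 ∧ j = 2) ∨ (i = 2 ∧ j = 0)
  symm := ⟨by decide⟩
  loopless := ⟨by decide⟩

instance : DecidableRel C5plus.Adj := fun i j =>
  inferInstanceAs (Decidable (j = i + 1 ∨ i = j + 1 ∨ (i = 0 ∧ j = 2) ∨ (i = 2 ∧ j = 0)))

/-! ### Histories and colourings of the token graph -/

theorem map_fst_play (σ : Strategy V) (s : List V) : (play σ s).map Prod.fst = s := by
  induction s with
  | nil => rfl
  | cons v s ih => simp [play, ih]

theorem colorable_iff (G : SimpleGraph V) (w : ℕ) (s : List V) :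
    (tokenGraph G s).Colorable w ↔
      ∃ h : List (V × ℕ), h.map Prod.fst = s ∧ ProperHistory G h ∧ ∀ x ∈ h, x.2 < w := by
  constructor
  · rintro ⟨C⟩
    refine ⟨List.ofFn (fun i : Fin s.length => (s[i], (C i : ℕ))), ?_, ?_, ?_⟩
    · rw [List.map_ofFn]
      apply List.ext_getElem
      · simp
      · intro n h1 h2
        simp
    · unfold ProperHistory
      rw [List.pairwise_ofFn]
      intro i j hij h
      have : C i ≠ C j := C.valid ⟨hij.ne, h⟩
      simpa [Fin.ext_iff] using this
    · intro x hx
      rw [List.mem_ofFn'] at hx
      obtain ⟨i, rfl⟩ := hx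
      exact (C i).2
  · rintro ⟨h, rfl, hp, hw⟩
    unfold ProperHistory at hp
    rw [List.pairwise_iff_getElem] at hp
    refine ⟨SimpleGraph.Coloring.mk (fun i : Fin (h.map Prod.fst).length =>
      (⟨(h[(i : ℕ)]'(by simpa using i.2)).2, hw _ (List.getElem_mem _)⟩ : Fin w)) ?_⟩
    intro i j hij hc
    rw [Fin.mk.injEq] at hc
    obtain ⟨hne, hadj⟩ := hij
    have hi : (i : ℕ) < h.length := by simpa using i.2
    have hj : (j : ℕ) < h.length := by simpa using j.2
    simp only [Fin.getElem_fin, List.getElem_map] at hadj
    rcases lt_or_gt_of_ne hne with hlt | hlt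
    · exact hp i j hi hj hlt hadj hc
    · exact hp j i hj hi hlt (hadj.imp Eq.symm SimpleGraph.Adj.symm) hc.symm

theorem legal_of_colorable (G : SimpleGraph V) (w : ℕ) (s : List V)
    (h : (tokenGraph G s).Colorable w) : Legal G w s := by
  intro t ht
  rw [colorable_iff] at h ⊢
  obtain ⟨h, rfl, hp, hw⟩ := h
  obtain ⟨u, hu⟩ := ht
  refine ⟨h.drop u.length, ?_, ?_, ?_⟩
  · rw [List.map_drop, ← hu]
    simp
  · exact hp.sublist (List.drop_sublist _ _)
  · intro x hx
    exact hw x (List.mem_of_mem_drop hx)

end Q127.Tok
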