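import Pool.Agent.Q127.Tok.Upper

/-!
# The strategy of Spoiler: at width `4 m` it forces `5 m` colours
-/

set_option autoImplicit false

namespace Q127.Tok

open Finset

/-- `n` tokens on the vertex `v` with the colours `a, ..., a + n - 1`. -/
def block (v : Fin 5) (a n : ℕ) : List (Fin 5 × ℕ) := (List.range n).map (fun i => (v, a + i))

theorem map_fst_block (v : Fin 5) (a n : ℕ) : (block v a n).map Prod.fst = List.replicate n v := by
  unfold block
  rw [List.map_map]
  apply List.eq_replicate_iff.2
  simp

theorem mem_block {v : Fin 5} {a n : ℕ} {x : Fin 5 × ℕ} :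
    x ∈ block v a n ↔ x.1 = v ∧ a ≤ x.2 ∧ x.2 < a + n := by
  unfold block
  rw [List.mem_map]
  constructor
  · rintro ⟨i, hi, rfl⟩
    rw [List.mem_range] at hi
    exact ⟨rfl, by simp, by simpa using hi⟩
  · rintro ⟨h1, h2, h3⟩
    refine ⟨x.2 - a, by rw [List.mem_range]; omega, ?_⟩
    ext1
    · exact h1.symm
    · show a + (x.2 - a) = x.2
      omega

theorem proper_block (v : Fin 5) (a n : ℕ) : ProperHistory C5plus (block v a n) := by
  unfold ProperHistory block
  rw [List.pairwise_map]
  refine List.Pairwise.imp ?_ List.pairwise_lt_range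
  intro i j hij _
  simp only [ne_eq, Nat.add_left_cancel_iff]
  omega

/-- The first continuation: tokens on `3` and `1`, then on `4` and `0`. -/
def H1 (m : ℕ) : List (Fin 5 × ℕ) :=
  block 0 0 (2 * m) ++ (block 4 (2 * m) (2 * m) ++
    (block 3 0 (2 * m) ++ block 1 (2 * m) (2 * m)))

/-- The second continuation: tokens on `3` and `1`, then on `2`. -/
def H2 (m : ℕ) : List (Fin 5 × ℕ) :=
  block 2 0 (2 * m) ++ (block 3 (2 * m) (2 * m) ++ block 1 (2 * m) (2 * m))

theorem not_adj_30 : ¬ C5plus.Adj 0 3 ∧ ¬ C5plus.Adj 4 1 ∧ ¬ C5plus.Adj 3 1 := by decide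

theorem proper_H1 (m : ℕ) : ProperHistory C5plus (H1 m) := by
  unfold H1 ProperHistory
  obtain ⟨n1, n2, n3⟩ := not_adj_30
  rw [List.pairwise_append, List.pairwise_append, List.pairwise_append]
  refine ⟨proper_block _ _ _, ⟨proper_block _ _ _,
    ⟨proper_block _ _ _, proper_block _ _ _, ?_⟩, ?_⟩, ?_⟩
  · intro x hx y hy _
    rw [mem_block] at hx hy
    omega
  · intro x hx y hy hxy
    rw [List.mem_append, mem_block, mem_block] at hy
    rw [mem_block] at hx
    rcases hy with hy | hy
    · omega
    · rw [hx.1, hy.1] at hxy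
      rcases hxy with hxy | hxy
      · exact absurd hxy (by decide)
      · exact absurd hxy n2
  · intro x hx y hy hxy
    rw [List.mem_append, List.mem_append, mem_block, mem_block, mem_block] at hy
    rw [mem_block] at hx
    rcases hy with hy | hy | hy
    · omega
    · rw [hx.1, hy.1] at hxy
      rcases hxy with hxy | hxy
      · exact absurd hxy (by decide)
      · exact absurd hxy n1
    · omega

theorem proper_H2 (m : ℕ) : ProperHistory C5plus (H2 m) := by
  unfold H2 ProperHistory
  obtain ⟨n1, n2, n3⟩ := not_adj_30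
  rw [List.pairwise_append, List.pairwise_append]
  refine ⟨proper_block _ _ _, ⟨proper_block _ _ _, proper_block _ _ _, ?_⟩, ?_⟩
  · intro x hx y hy hxy
    rw [mem_block] at hx hy
    rw [hx.1, hy.1] at hxy
    rcases hxy with hxy | hxy
    · exact absurd hxy (by decide)
    · exact absurd hxy n3
  · intro x hx y hy _
    rw [List.mem_append, mem_block, mem_block] at hy
    rw [mem_block] at hx
    rcases hy with hy | hy <;> omega

/-- The tokens placed at the beginning. -/
def S0 (m : ℕ) : List (Fin 5) := List.replicate (2 * m) 3 ++ List.replicate (2 * m) 1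

def S1 (m : ℕ) : List (Fin 5) :=
  List.replicate (2 * m) 0 ++ (List.replicate (2 * m) 4 ++ S0 m)

def S2 (m : ℕ) : List (Fin 5) := List.replicate (2 * m) 2 ++ S0 m

theorem legal_S1 (m : ℕ) : Legal C5plus (4 * m) (S1 m) := by
  apply legal_of_colorable
  rw [colorable_iff]
  refine ⟨H1 m, ?_, proper_H1 m, ?_⟩
  · simp only [H1, S1, S0, List.map_append, map_fst_block]
  · intro x hx
    simp only [H1, List.mem_append, mem_block] at hx
    omega

theorem legal_S2 (m : ℕ) : Legal C5plus (4 * m) (S2 m) := by
  apply legal_of_colorable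
  rw [colorable_iff]
  refine ⟨H2 m, ?_, proper_H2 m, ?_⟩
  · simp only [H2, S2, S0, List.map_append, map_fst_block]
  · intro x hx
    simp only [H2, List.mem_append, mem_block] at hx
    omega

theorem play_suffix (σ : Strategy (Fin 5)) (u s : List (Fin 5)) :
    play σ s <:+ play σ (u ++ s) := by
  induction u with
  | nil => exact List.suffix_refl _
  | cons v u ih => exact ih.trans (List.suffix_cons _ _)

theorem cs_mono {h h' : List (Fin 5 × ℕ)} (hh : h <:+ h') (v : Fin 5) : cs h v ⊆ cs h' v := by
  intro x hx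
  rw [mem_cs] at hx ⊢
  exact hh.subset hx

theorem cs_subset (h : List (Fin 5 × ℕ)) (v : Fin 5) : cs h v ⊆ (h.map Prod.snd).toFinset := by
  intro x hx
  rw [mem_cs] at hx
  rw [List.mem_toFinset]
  exact List.mem_map_of_mem hx

theorem lower (m N : ℕ) (σ : Strategy (Fin 5)) (h : Guarantees C5plus (4 * m) N σ) :
    5 * m ≤ N := by
  obtain ⟨p1, c1⟩ := h _ (legal_S1 m)
  obtain ⟨p2, c2⟩ := h _ (legal_S2 m)
  obtain ⟨h01, h04, h02, h34, h32, h12⟩ := C5plus_adj
  have hs1 : play σ (S0 m) <:+ play σ (S1 m) := by
    have := play_suffix σ (List.replicate (2 * m) 0 ++ List.replicate (2 * m) 4) (S0 m)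
    rwa [List.append_assoc] at this
  have hs2 : play σ (S0 m) <:+ play σ (S2 m) := play_suffix σ _ _
  have p0 : ProperHistory C5plus (play σ (S0 m)) := p1.sublist hs1.sublist
  have k0 := card_cs C5plus _ p0
  have k1 := card_cs C5plus _ p1
  have k2 := card_cs C5plus _ p2
  rw [map_fst_play] at k0 k1 k2
  have b0 : (cs (play σ (S0 m)) 3).card = 2 * m := by
    rw [k0]; simp [S0, List.count_replicate]
  have b1 : (cs (play σ (S0 m)) 1).card = 2 * m := by
    rw [k0]; simp [S0, List.count_replicate]
  have a1 : (cs (play σ (S1 m)) 0).card = 2 * m := by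
    rw [k1]; simp [S1, S0, List.count_replicate]
  have d1 : (cs (play σ (S1 m)) 4).card = 2 * m := by
    rw [k1]; simp [S1, S0, List.count_replicate]
  have e2 : (cs (play σ (S2 m)) 2).card = 2 * m := by
    rw [k2]; simp [S2, S0, List.count_replicate]
  set B := cs (play σ (S0 m)) 3 with hB
  set C := cs (play σ (S0 m)) 1 with hC
  have hbc : (B ∪ C).card + (B ∩ C).card = 4 * m := by
    rw [card_union_add_card_inter]
    omega
  by_cases hp : m ≤ (B ∩ C).card
  · -- many colours common to `3` and `1`
    set A := cs (play σ (S1 m)) 0 with hA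
    set D := cs (play σ (S1 m)) 4 with hD
    have hAD : Disjoint A D := disjoint_cs _ _ p1 h04
    have hAC : Disjoint A C := (disjoint_cs _ _ p1 h01).mono_right (cs_mono hs1 1)
    have hBD : Disjoint B D := (disjoint_cs _ _ p1 h34).mono_left (cs_mono hs1 3)
    have hX : Disjoint (A ∪ D) (B ∩ C) := by
      rw [disjoint_union_left]
      exact ⟨hAC.mono_right inter_subset_right, hBD.symm.mono_right inter_subset_left⟩
    have hle : ((A ∪ D) ∪ (B ∩ C)).card ≤ N := by
      refine le_trans (card_le_card ?_) c1
      refine union_subset (union_subset (cs_subset _ _) (cs_subset _ _)) ?_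
      exact (inter_subset_left.trans (cs_mono hs1 3)).trans (cs_subset _ _)
    rw [card_union_of_disjoint hX, card_union_of_disjoint hAD] at hle
    omega
  · -- few colours common to `3` and `1`
    set E := cs (play σ (S2 m)) 2 with hE
    have hBE : Disjoint B E := (disjoint_cs _ _ p2 h32).mono_left (cs_mono hs2 3)
    have hCE : Disjoint C E := (disjoint_cs _ _ p2 h12).mono_left (cs_mono hs2 1)
    have hX : Disjoint E (B ∪ C) := by
      rw [disjoint_union_right]
      exact ⟨hBE.symm, hCE.symm⟩
    have hle : (E ∪ (B ∪ C)).card ≤ N := by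
      refine le_trans (card_le_card ?_) c2
      refine union_subset (cs_subset _ _) (union_subset ?_ ?_)
      · exact (cs_mono hs2 3).trans (cs_subset _ _)
      · exact (cs_mono hs2 1).trans (cs_subset _ _)
    rw [card_union_of_disjoint hX] at hle
    omega

theorem f_lower (w m : ℕ) (hw : 4 * m ≤ w) : 5 * m ≤ f w C5plus := by
  unfold f
  apply le_csInf
  · exact ⟨5 * w, strat w, (strat_guarantees w).anti (by omega)⟩
  · rintro N ⟨σ, hσ⟩
    exact lower m N σ (hσ.anti hw)

end Q127.Tok
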