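import Pool.Agent.Q127.Tok.Arith

/-!
# One step of the strategy, in terms of the sets of colours used on the five vertices
-/

set_option autoImplicit false

namespace Q127.Tok

open Finset

/-- The invariant for the sets of colours used on the vertices of the path `a - b - c - d - e`. -/
structure SInv (m : ℕ) (A B C D E : Finset ℕ) : Prop where
  ac : Disjoint A C
  ad : Disjoint A D
  ae : Disjoint A E
  bd : Disjoint B D
  be : Disjoint B E
  ce : Disjoint C E
  ab : (A ∩ B).card = min A.card (B.card - (B ∩ C).card)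
  de : (E ∩ D).card = min E.card (D.card - (D ∩ C).card)
  ar : AInv m A.card B.card C.card D.card E.card (B ∩ C).card (D ∩ C).card

theorem AInv.symm {m a b c d e p q : ℕ} (h : AInv m a b c d e p q) : AInv m e d c b a q p := by
  unfold AInv at *
  omega

theorem Feas.symm {m a b c d e : ℕ} (h : Feas m a b c d e) : Feas m e d c b a := by
  unfold Feas at *
  omega

theorem SInv.symm {m : ℕ} {A B C D E : Finset ℕ} (h : SInv m A B C D E) : SInv m E D C B A where
  ac := h.ce.symm
  ad := h.be.symm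
  ae := h.ae.symm
  bd := h.bd.symm
  be := h.ad.symm
  ce := h.ac.symm
  ab := h.de
  de := h.ab
  ar := h.ar.symm

theorem exists_fresh (X : Finset ℕ) : ∃ x, x ∉ X := Infinite.exists_notMem_finset X

theorem SInv.total {m : ℕ} {A B C D E : Finset ℕ} (h : SInv m A B C D E)
    (hf : Feas m A.card B.card C.card D.card E.card) :
    (A ∪ B ∪ C ∪ D ∪ E).card ≤ 5 * m := by
  have h1 := Q127.Tok.total h.ar hf
  have e1 : (D ∪ E).card + (E ∩ D).card = D.card + E.card := by
    rw [inter_comm, card_union_add_card_inter]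
  have e2 : (C ∪ (D ∪ E)).card + (D ∩ C).card = C.card + (D ∪ E).card := by
    rw [← card_union_add_card_inter C (D ∪ E)]
    congr 2
    rw [inter_union_distrib_left, disjoint_iff_inter_eq_empty.1 h.ce, union_empty, inter_comm]
  have e3 : (B ∪ (C ∪ (D ∪ E))).card + (B ∩ C).card = B.card + (C ∪ (D ∪ E)).card := by
    rw [← card_union_add_card_inter B (C ∪ (D ∪ E))]
    congr 2
    rw [inter_union_distrib_left, inter_union_distrib_left, disjoint_iff_inter_eq_empty.1 h.bd,
      disjoint_iff_inter_eq_empty.1 h.be, union_empty, union_empty]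
  have e4 : (A ∪ (B ∪ (C ∪ (D ∪ E)))).card + (A ∩ B).card =
      A.card + (B ∪ (C ∪ (D ∪ E))).card := by
    rw [← card_union_add_card_inter A (B ∪ (C ∪ (D ∪ E)))]
    congr 2
    rw [inter_union_distrib_left, inter_union_distrib_left, inter_union_distrib_left,
      disjoint_iff_inter_eq_empty.1 h.ac, disjoint_iff_inter_eq_empty.1 h.ad,
      disjoint_iff_inter_eq_empty.1 h.ae, union_empty, union_empty, union_empty]
  have e5 : A ∪ B ∪ C ∪ D ∪ E = A ∪ (B ∪ (C ∪ (D ∪ E))) := by
    simp only [union_assoc]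
  rw [e5]
  have h2 := h.ab
  have h3 := h.de
  have h4 : (B ∩ C).card ≤ B.card := card_le_card inter_subset_left
  have h5 : (D ∩ C).card ≤ D.card := card_le_card inter_subset_left
  omega

theorem step_A {m : ℕ} {A B C D E : Finset ℕ} (h : SInv m A B C D E) :
    ∃ x, x ∉ A ∧ x ∉ C ∧ x ∉ D ∧ x ∉ E ∧ SInv m (insert x A) B C D E := by
  have har := step_a h.ar
  by_cases hlt : A.card < B.card - (B ∩ C).card
  · -- there is a colour on `b` which is neither on `a` nor on `c`
    have h1 : ((B \ (A ∪ C))).Nonempty := by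
      rw [← card_pos]
      have e1 : (B \ (A ∪ C)).card + (B ∩ (A ∪ C)).card = B.card := by
        rw [add_comm]
        exact card_inter_add_card_sdiff B (A ∪ C)
      have e2 : (B ∩ (A ∪ C)).card ≤ (A ∩ B).card + (B ∩ C).card := by
        rw [inter_union_distrib_left]
        refine le_trans (card_union_le _ _) ?_
        rw [inter_comm B A]
      have e3 := h.ab
      omega
    obtain ⟨x, hx⟩ := h1
    rw [mem_sdiff, mem_union, not_or] at hx
    obtain ⟨hxB, hxA, hxC⟩ := hx
    have hxD : x ∉ D := fun hd => disjoint_left.1 h.bd hxB hd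
    have hxE : x ∉ E := fun hd => disjoint_left.1 h.be hxB hd
    refine ⟨x, hxA, hxC, hxD, hxE, ?_⟩
    refine ⟨disjoint_insert_left.2 ⟨hxC, h.ac⟩, disjoint_insert_left.2 ⟨hxD, h.ad⟩,
      disjoint_insert_left.2 ⟨hxE, h.ae⟩, h.bd, h.be, h.ce, ?_, h.de, ?_⟩
    · rw [insert_inter_of_mem hxB, card_insert_of_notMem (fun hh => hxA (mem_inter.1 hh).1),
        card_insert_of_notMem hxA, h.ab]
      omega
    · rw [card_insert_of_notMem hxA]
      exact har
  · obtain ⟨x, hx⟩ := exists_fresh (A ∪ B ∪ C ∪ D ∪ E)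
    simp only [mem_union, not_or] at hx
    obtain ⟨⟨⟨⟨hxA, hxB⟩, hxC⟩, hxD⟩, hxE⟩ := hx
    refine ⟨x, hxA, hxC, hxD, hxE, ?_⟩
    refine ⟨disjoint_insert_left.2 ⟨hxC, h.ac⟩, disjoint_insert_left.2 ⟨hxD, h.ad⟩,
      disjoint_insert_left.2 ⟨hxE, h.ae⟩, h.bd, h.be, h.ce, ?_, h.de, ?_⟩
    · rw [insert_inter_of_notMem hxB, card_insert_of_notMem hxA, h.ab]
      omega
    · rw [card_insert_of_notMem hxA]
      exact har

theorem step_E {m : ℕ} {A B C D E : Finset ℕ} (h : SInv m A B C D E) :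
    ∃ x, x ∉ E ∧ x ∉ C ∧ x ∉ B ∧ x ∉ A ∧ SInv m A B C D (insert x E) := by
  obtain ⟨x, h1, h2, h3, h4, h5⟩ := step_A h.symm
  exact ⟨x, h1, h2, h3, h4, h5.symm⟩

theorem step_B {m : ℕ} {A B C D E : Finset ℕ} (h : SInv m A B C D E)
    (hf : Feas m A.card (B.card + 1) C.card D.card E.card) :
    ∃ x, x ∉ B ∧ x ∉ D ∧ x ∉ E ∧ SInv m A (insert x B) C D E := by
  rcases step_b h.ar hf with har | ⟨hlt, har⟩
  · -- no new colour common to `b` and `c`
    by_cases hlt : B.card - (B ∩ C).card < A.card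
    · have h1 : (A \ B).Nonempty := by
        rw [← card_pos]
        have e1 : (A ∩ B).card + (A \ B).card = A.card := card_inter_add_card_sdiff A B
        have e3 := h.ab
        omega
      obtain ⟨x, hx⟩ := h1
      rw [mem_sdiff] at hx
      obtain ⟨hxA, hxB⟩ := hx
      have hxC : x ∉ C := fun hd => disjoint_left.1 h.ac hxA hd
      have hxD : x ∉ D := fun hd => disjoint_left.1 h.ad hxA hd
      have hxE : x ∉ E := fun hd => disjoint_left.1 h.ae hxA hd
      have hBC : insert x B ∩ C = B ∩ C := insert_inter_of_notMem hxC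
      refine ⟨x, hxB, hxD, hxE, ⟨h.ac, h.ad, h.ae, disjoint_insert_left.2 ⟨hxD, h.bd⟩,
        disjoint_insert_left.2 ⟨hxE, h.be⟩, h.ce, ?_, h.de, ?_⟩⟩
      · rw [inter_insert_of_mem hxA, card_insert_of_notMem (fun hh => hxB (mem_inter.1 hh).2),
          card_insert_of_notMem hxB, hBC, h.ab]
        have h4 : (B ∩ C).card ≤ B.card := card_le_card inter_subset_left
        omega
      · rw [card_insert_of_notMem hxB, hBC]
        exact har
    · obtain ⟨x, hx⟩ := exists_fresh (A ∪ B ∪ C ∪ D ∪ E)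
      simp only [mem_union, not_or] at hx
      obtain ⟨⟨⟨⟨hxA, hxB⟩, hxC⟩, hxD⟩, hxE⟩ := hx
      have hBC : insert x B ∩ C = B ∩ C := insert_inter_of_notMem hxC
      refine ⟨x, hxB, hxD, hxE, ⟨h.ac, h.ad, h.ae, disjoint_insert_left.2 ⟨hxD, h.bd⟩,
        disjoint_insert_left.2 ⟨hxE, h.be⟩, h.ce, ?_, h.de, ?_⟩⟩
      · rw [inter_insert_of_notMem hxA, card_insert_of_notMem hxB, hBC, h.ab]
        have h4 : (B ∩ C).card ≤ B.card := card_le_card inter_subset_left
        omega
      · rw [card_insert_of_notMem hxB, hBC]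
        exact har
  · -- a new colour common to `b` and `c`
    have h1 : (C \ (B ∪ D)).Nonempty := by
      rw [← card_pos]
      have e1 : (C ∩ (B ∪ D)).card + (C \ (B ∪ D)).card = C.card :=
        card_inter_add_card_sdiff C (B ∪ D)
      have e2 : (C ∩ (B ∪ D)).card ≤ (B ∩ C).card + (D ∩ C).card := by
        rw [inter_union_distrib_left]
        refine le_trans (card_union_le _ _) ?_
        rw [inter_comm C B, inter_comm C D]
      omega
    obtain ⟨x, hx⟩ := h1
    rw [mem_sdiff, mem_union, not_or] at hx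
    obtain ⟨hxC, hxB, hxD⟩ := hx
    have hxA : x ∉ A := fun hd => disjoint_left.1 h.ac hd hxC
    have hxE : x ∉ E := fun hd => disjoint_left.1 h.ce hxC hd
    have hBC : insert x B ∩ C = insert x (B ∩ C) := insert_inter_of_mem hxC
    have hBC' : (insert x B ∩ C).card = (B ∩ C).card + 1 := by
      rw [hBC, card_insert_of_notMem (fun hh => hxB (mem_inter.1 hh).1)]
    refine ⟨x, hxB, hxD, hxE, ⟨h.ac, h.ad, h.ae, disjoint_insert_left.2 ⟨hxD, h.bd⟩,
      disjoint_insert_left.2 ⟨hxE, h.be⟩, h.ce, ?_, h.de, ?_⟩⟩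
    · rw [inter_insert_of_notMem hxA, card_insert_of_notMem hxB, hBC', h.ab]
      omega
    · rw [card_insert_of_notMem hxB, hBC']
      exact har

theorem step_D {m : ℕ} {A B C D E : Finset ℕ} (h : SInv m A B C D E)
    (hf : Feas m A.card B.card C.card (D.card + 1) E.card) :
    ∃ x, x ∉ D ∧ x ∉ B ∧ x ∉ A ∧ SInv m A B C (insert x D) E := by
  obtain ⟨x, h1, h2, h3, h4⟩ := step_B h.symm hf.symm
  exact ⟨x, h1, h2, h3, h4.symm⟩

/-- The new colour on `c` is one of the colours on `b`. -/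
theorem step_C_aux {m : ℕ} {A B C D E : Finset ℕ} (h : SInv m A B C D E)
    (hlt : A.card + (B ∩ C).card < B.card)
    (har : AInv m A.card B.card (C.card + 1) D.card E.card ((B ∩ C).card + 1) (D ∩ C).card) :
    ∃ x, x ∉ C ∧ x ∉ A ∧ x ∉ E ∧ SInv m A B (insert x C) D E := by
  have h1 : ((B \ (A ∪ C))).Nonempty := by
    rw [← card_pos]
    have e1 : (B ∩ (A ∪ C)).card + (B \ (A ∪ C)).card = B.card :=
      card_inter_add_card_sdiff B (A ∪ C)
    have e2 : (B ∩ (A ∪ C)).card ≤ (A ∩ B).card + (B ∩ C).card := by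
      rw [inter_union_distrib_left]
      refine le_trans (card_union_le _ _) ?_
      rw [inter_comm B A]
    have e3 := h.ab
    omega
  obtain ⟨x, hx⟩ := h1
  rw [mem_sdiff, mem_union, not_or] at hx
  obtain ⟨hxB, hxA, hxC⟩ := hx
  have hxD : x ∉ D := fun hd => disjoint_left.1 h.bd hxB hd
  have hxE : x ∉ E := fun hd => disjoint_left.1 h.be hxB hd
  have hBC' : (B ∩ insert x C).card = (B ∩ C).card + 1 := by
    rw [inter_insert_of_mem hxB, card_insert_of_notMem (fun hh => hxC (mem_inter.1 hh).2)]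
  have hDC' : D ∩ insert x C = D ∩ C := inter_insert_of_notMem hxD
  refine ⟨x, hxC, hxA, hxE, ⟨disjoint_insert_right.2 ⟨hxA, h.ac⟩, h.ad, h.ae, h.bd, h.be,
    disjoint_insert_left.2 ⟨hxE, h.ce⟩, ?_, ?_, ?_⟩⟩
  · rw [hBC', h.ab]
    omega
  · rw [hDC']
    exact h.de
  · rw [card_insert_of_notMem hxC, hBC', hDC']
    exact har

theorem step_C {m : ℕ} {A B C D E : Finset ℕ} (h : SInv m A B C D E)
    (hf : Feas m A.card B.card (C.card + 1) D.card E.card) :
    ∃ x, x ∉ C ∧ x ∉ A ∧ x ∉ E ∧ SInv m A B (insert x C) D E := by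
  rcases step_c h.ar hf with har | ⟨hlt, har⟩ | ⟨hlt, har⟩
  · obtain ⟨x, hx⟩ := exists_fresh (A ∪ B ∪ C ∪ D ∪ E)
    simp only [mem_union, not_or] at hx
    obtain ⟨⟨⟨⟨hxA, hxB⟩, hxC⟩, hxD⟩, hxE⟩ := hx
    have hBC : B ∩ insert x C = B ∩ C := inter_insert_of_notMem hxB
    have hDC : D ∩ insert x C = D ∩ C := inter_insert_of_notMem hxD
    refine ⟨x, hxC, hxA, hxE, ⟨disjoint_insert_right.2 ⟨hxA, h.ac⟩, h.ad, h.ae, h.bd, h.be,
      disjoint_insert_left.2 ⟨hxE, h.ce⟩, ?_, ?_, ?_⟩⟩
    · rw [hBC]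
      exact h.ab
    · rw [hDC]
      exact h.de
    · rw [card_insert_of_notMem hxC, hBC, hDC]
      exact har
  · exact step_C_aux h hlt har
  · obtain ⟨x, h1, h2, h3, h4⟩ := step_C_aux h.symm hlt har.symm
    exact ⟨x, h1, h3, h2, h4.symm⟩

end Q127.Tok
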