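import Pool.Agent.Q127.Tok.Defs
import Pool.Agent.Q127.Tok.Sets

/-!
# The strategy of Algorithm: at width `4 m` it needs at most `5 m` colours
-/

set_option autoImplicit false

namespace Q127.Tok

open Finset

section General

variable {V : Type*} [DecidableEq V]

/-- The set of the colours of the tokens on the vertex `v`. -/
def cs (h : List (V × ℕ)) (v : V) : Finset ℕ :=
  ((h.filter (fun x => x.1 = v)).map Prod.snd).toFinset

theorem cs_nil (v : V) : cs ([] : List (V × ℕ)) v = ∅ := by
  simp [cs]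

theorem cs_cons_self (u : V) (x : ℕ) (h : List (V × ℕ)) :
    cs ((u, x) :: h) u = insert x (cs h u) := by
  simp [cs]

theorem cs_cons_ne {u v : V} (hne : u ≠ v) (x : ℕ) (h : List (V × ℕ)) :
    cs ((u, x) :: h) v = cs h v := by
  simp [cs, hne]

theorem mem_cs {h : List (V × ℕ)} {v : V} {x : ℕ} : x ∈ cs h v ↔ (v, x) ∈ h := by
  simp [cs]

theorem properHistory_cons (G : SimpleGraph V) (u : V) (x : ℕ) (h : List (V × ℕ)) :
    ProperHistory G ((u, x) :: h) ↔
      (∀ v, (u = v ∨ G.Adj u v) → x ∉ cs h v) ∧ ProperHistory G h := by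
  unfold ProperHistory
  rw [List.pairwise_cons]
  refine and_congr_left (fun _ => ?_)
  constructor
  · intro H v huv hx
    exact H (v, x) (mem_cs.1 hx) huv rfl
  · rintro H ⟨v, y⟩ hy huv hxy
    have hxy' : x = y := hxy
    subst hxy'
    exact H v huv (mem_cs.2 hy)

theorem card_cs (G : SimpleGraph V) (h : List (V × ℕ)) (hp : ProperHistory G h) (v : V) :
    (cs h v).card = (h.map Prod.fst).count v := by
  induction h with
  | nil => simp [cs]
  | cons a h ih =>
    obtain ⟨u, x⟩ := a
    rw [properHistory_cons] at hp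
    by_cases huv : u = v
    · subst huv
      rw [cs_cons_self, card_insert_of_notMem (hp.1 u (Or.inl rfl)), ih hp.2]
      simp
    · rw [cs_cons_ne huv, ih hp.2]
      simp [huv]

theorem disjoint_cs (G : SimpleGraph V) (h : List (V × ℕ)) (hp : ProperHistory G h) {u v : V}
    (huv : G.Adj u v) : Disjoint (cs h u) (cs h v) := by
  rw [disjoint_left]
  intro x hu hv
  rw [mem_cs] at hu hv
  unfold ProperHistory at hp
  have hne : ((u, x) : V × ℕ) ≠ (v, x) := fun hh => huv.ne (congrArg Prod.fst hh)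
  have hsymm : Std.Symm (fun x y : V × ℕ => (x.1 = y.1 ∨ G.Adj x.1 y.1) → x.2 ≠ y.2) :=
    ⟨fun a b hab h' => (hab (h'.imp Eq.symm SimpleGraph.Adj.symm)).symm⟩
  exact List.Pairwise.forall hp hu hv hne (Or.inr huv) rfl

end General

theorem C5plus_adj : C5plus.Adj 0 1 ∧ C5plus.Adj 0 4 ∧ C5plus.Adj 0 2 ∧ C5plus.Adj 3 4 ∧
    C5plus.Adj 3 2 ∧ C5plus.Adj 1 2 := by
  decide

/-- The conditions on the numbers of tokens follow from legality. -/
theorem feas_of_legal {w : ℕ} {s : List (Fin 5)} (hs : Legal C5plus w s) :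
    s.count 0 + s.count 1 + s.count 2 ≤ w ∧ s.count 0 + s.count 4 ≤ w ∧
      s.count 3 + s.count 4 ≤ w ∧ s.count 3 + s.count 2 ≤ w := by
  obtain ⟨h, hmap, hp, hw⟩ := (colorable_iff C5plus w s).1 (hs s (List.suffix_refl s))
  subst hmap
  have hc := card_cs C5plus h hp
  rw [← hc, ← hc, ← hc, ← hc, ← hc]
  obtain ⟨h01, h04, h02, h34, h32, h12⟩ := C5plus_adj
  have hsub : ∀ v, cs h v ⊆ range w := by
    intro v x hx
    rw [mem_range]
    exact hw _ (mem_cs.1 hx)
  refine ⟨?_, ?_, ?_, ?_⟩
  · rw [← card_union_of_disjoint (disjoint_cs _ h hp h01), ← card_union_of_disjoint]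
    · refine le_trans (card_le_card (union_subset (union_subset (hsub _) (hsub _)) (hsub _))) ?_
      simp
    · exact disjoint_union_left.2 ⟨disjoint_cs _ h hp h02, disjoint_cs _ h hp h12⟩
  · rw [← card_union_of_disjoint (disjoint_cs _ h hp h04)]
    refine le_trans (card_le_card (union_subset (hsub _) (hsub _))) ?_
    simp
  · rw [← card_union_of_disjoint (disjoint_cs _ h hp h34)]
    refine le_trans (card_le_card (union_subset (hsub _) (hsub _))) ?_
    simp
  · rw [← card_union_of_disjoint (disjoint_cs _ h hp h32)]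
    refine le_trans (card_le_card (union_subset (hsub _) (hsub _))) ?_
    simp

/-- The invariant of Algorithm for the history. -/
def HInv (m : ℕ) (h : List (Fin 5 × ℕ)) : Prop :=
  ProperHistory C5plus h ∧ SInv m (cs h 0) (cs h 3) (cs h 1) (cs h 4) (cs h 2)

theorem hinv_nil (m : ℕ) : HInv m [] := by
  refine ⟨List.Pairwise.nil, ?_⟩
  simp only [cs_nil]
  refine ⟨disjoint_empty_left _, disjoint_empty_left _, disjoint_empty_left _,
    disjoint_empty_left _, disjoint_empty_left _, disjoint_empty_left _, by simp, by simp, ?_⟩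
  simp [AInv]

theorem hinv_step (m : ℕ) (h : List (Fin 5 × ℕ)) (hi : HInv m h) (u : Fin 5)
    (hl : Legal C5plus (4 * m) (u :: h.map Prod.fst)) : ∃ x, HInv m ((u, x) :: h) := by
  obtain ⟨hp, hi⟩ := hi
  obtain ⟨f1, f2, f3, f4⟩ := feas_of_legal hl
  have hc := card_cs C5plus h hp
  simp only [List.count_cons, ← hc] at f1 f2 f3 f4
  fin_cases u
  · obtain ⟨x, h1, h2, h3, h4, h5⟩ := step_A hi
    refine ⟨x, (properHistory_cons _ _ _ _).2 ⟨?_, hp⟩, ?_⟩
    · intro v hv
      fin_cases v
      · exact h1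
      · exact h2
      · exact h4
      · exact absurd hv (by decide)
      · exact h3
    · show SInv m (cs ((0, x) :: h) 0) _ _ _ _
      rw [cs_cons_self]
      exact h5
  · obtain ⟨x, h1, h2, h3, h4⟩ := step_C hi (by
      refine ⟨?_, ?_, ?_, ?_⟩ <;> simp at f1 f2 f3 f4 <;> omega)
    refine ⟨x, (properHistory_cons _ _ _ _).2 ⟨?_, hp⟩, ?_⟩
    · intro v hv
      fin_cases v
      · exact h2
      · exact h1
      · exact h3
      · exact absurd hv (by decide)
      · exact absurd hv (by decide)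
    · show SInv m _ _ (cs ((1, x) :: h) 1) _ _
      rw [cs_cons_self]
      exact h4
  · obtain ⟨x, h1, h2, h3, h4, h5⟩ := step_E hi
    refine ⟨x, (properHistory_cons _ _ _ _).2 ⟨?_, hp⟩, ?_⟩
    · intro v hv
      fin_cases v
      · exact h4
      · exact h2
      · exact h1
      · exact h3
      · exact absurd hv (by decide)
    · show SInv m _ _ _ _ (cs ((2, x) :: h) 2)
      rw [cs_cons_self]
      exact h5
  · obtain ⟨x, h1, h2, h3, h4⟩ := step_B hi (by
      refine ⟨?_, ?_, ?_, ?_⟩ <;> simp at f1 f2 f3 f4 <;> omega)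
    refine ⟨x, (properHistory_cons _ _ _ _).2 ⟨?_, hp⟩, ?_⟩
    · intro v hv
      fin_cases v
      · exact absurd hv (by decide)
      · exact absurd hv (by decide)
      · exact h3
      · exact h1
      · exact h2
    · show SInv m _ (cs ((3, x) :: h) 3) _ _ _
      rw [cs_cons_self]
      exact h4
  · obtain ⟨x, h1, h2, h3, h4⟩ := step_D hi (by
      refine ⟨?_, ?_, ?_, ?_⟩ <;> simp at f1 f2 f3 f4 <;> omega)
    refine ⟨x, (properHistory_cons _ _ _ _).2 ⟨?_, hp⟩, ?_⟩
    · intro v hv
      fin_cases v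
      · exact h3
      · exact absurd hv (by decide)
      · exact absurd hv (by decide)
      · exact h2
      · exact h1
    · show SInv m _ _ _ (cs ((4, x) :: h) 4) _
      rw [cs_cons_self]
      exact h4

open Classical in
/-- The strategy of Algorithm: keep the invariant. -/
noncomputable def strat (m : ℕ) : Strategy (Fin 5) := fun h u =>
  if H : ∃ x, HInv m ((u, x) :: h) then H.choose else 0

theorem hinv_play (m : ℕ) (s : List (Fin 5)) (hs : Legal C5plus (4 * m) s) :
    HInv m (play (strat m) s) := by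
  induction s with
  | nil => exact hinv_nil m
  | cons u s ih =>
    have hs' : Legal C5plus (4 * m) s := fun t ht => hs t (ht.trans (List.suffix_cons u s))
    have h1 := ih hs'
    have H : ∃ x, HInv m ((u, x) :: play (strat m) s) :=
      hinv_step m _ h1 u (by rw [map_fst_play]; exact hs)
    have h3 : strat m (play (strat m) s) u = H.choose := dif_pos H
    have h2 : play (strat m) (u :: s) = (u, H.choose) :: play (strat m) s := by
      show (u, strat m (play (strat m) s) u) :: play (strat m) s = _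
      rw [h3]
    rw [h2]
    exact H.choose_spec

theorem strat_guarantees (m : ℕ) : Guarantees C5plus (4 * m) (5 * m) (strat m) := by
  intro s hs
  obtain ⟨hp, hi⟩ := hinv_play m s hs
  refine ⟨hp, ?_⟩
  obtain ⟨f1, f2, f3, f4⟩ := feas_of_legal hs
  have hc := card_cs C5plus _ hp
  rw [map_fst_play] at hc
  rw [← hc, ← hc, ← hc] at f1
  rw [← hc, ← hc] at f2 f3 f4
  refine le_trans (card_le_card ?_) (hi.total ⟨f1, f2, f3, f4⟩)
  intro x hx
  rw [List.mem_toFinset, List.mem_map] at hx
  obtain ⟨⟨v, y⟩, hvy, rfl⟩ := hx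
  have h1 := mem_cs.2 hvy
  simp only [mem_union]
  fin_cases v
  · exact Or.inl (Or.inl (Or.inl (Or.inl h1)))
  · exact Or.inl (Or.inl (Or.inr h1))
  · exact Or.inr h1
  · exact Or.inl (Or.inl (Or.inl (Or.inr h1)))
  · exact Or.inl (Or.inr h1)

theorem Legal.mono {V : Type*} {G : SimpleGraph V} {w w' : ℕ} (hw : w ≤ w') {s : List V}
    (hs : Legal G w s) : Legal G w' s :=
  fun t ht => (hs t ht).mono hw

theorem Guarantees.anti {V : Type*} {G : SimpleGraph V} {w w' N : ℕ} (hw : w ≤ w')
    {σ : Strategy V} (h : Guarantees G w' N σ) : Guarantees G w N σ :=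
  fun s hs => h s (hs.mono hw)

theorem f_upper (w m : ℕ) (hw : w ≤ 4 * m) : f w C5plus ≤ 5 * m :=
  Nat.sInf_le ⟨strat m, (strat_guarantees m).anti hw⟩

end Q127.Tok
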